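import Mathlib
import Pool.Agent.W2helper16.KM.F

/-!
# MP_5168f5: the full Kakeya maximal function and Fourier majorants

A function `F` is a Fourier majorant of `f` if the Fourier transform of `F` is real and at least
the absolute value of the Fourier transform of `f`, almost everywhere.  A nonnegative function with
a nonnegative Fourier transform is its own majorant; in `L²` every function has a majorant with the
same norm; in `L^p`, `p > 2`, this is the (false in general) Hardy-Littlewood majorant property.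

Let `|h| ≤ ∑ f k` with square integrable `f k ≥ 0` which live on sets `A k` such that every ball of
radius `2` meets at most `N` of them (one function and `A 0 = ℝ^n` is allowed, and so is any locally
finite sum of pieces around arbitrary centres), and let `F k` be a Fourier majorant of `f k`. Then
the estimates of the Kakeya maximal conjecture hold for `h`, for all exponents `1 ≤ p ≤ n`, with the
norms of the majorants on the right hand side:

  `∫ (h*_δ)^p ≤ C N^(p-1) δ^(-(n-p)) (1 + log (1/δ))^(p-1) ∑ ∫ |F k|^p`.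

The supremum in the maximal function is over ALL tubes of dimensions `1 × δ`. At the critical
exponent `p = n` the loss in the norms is `(log (1/δ))^((n-1)/n)`, the loss `(log (1/δ))^(1/2)` of
the plane if `n = 2`.

Proof. A self convolution of a bump function adapted to a tube is at least a constant on the tube
and has a nonnegative Fourier transform. By Plancherel the pairing of any translate of it with `f`
is at most the pairing of the function itself, centred at the origin, with `F`. So the average of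
`f` over any tube is at most a constant times the average of `|F|` over a dilated tube centred at
the origin, and these averages are bounded by a decomposition into dyadic shells.
-/

set_option autoImplicit false

open MeasureTheory Set Filter Topology Metric FourierTransform
open scoped ENNReal NNReal RealInnerProductSpace

namespace Pool.Agent.Results.MP_5168f5_an.FourierMajorant

/-- Euclidean space -/
abbrev E (n : ℕ) := EuclideanSpace ℝ (Fin n)

/-- The closed tube of length `1` and radius `δ` with centre `b` and axis direction `e`. -/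
def tube {n : ℕ} (δ : ℝ) (e b : E n) : Set (E n) :=
  {y | |⟪y - b, e⟫| ≤ 1 / 2 ∧ ‖(y - b) - (⟪y - b, e⟫ : ℝ) • e‖ ≤ δ}

/-- The Kakeya maximal function, the supremum over all tubes of direction `e`. -/
noncomputable def kakeyaMax {n : ℕ} (δ : ℝ) (h : E n → ℝ) (e : E n) : ℝ≥0∞ :=
  ⨆ a : E n, (volume (tube δ e a))⁻¹ * ∫⁻ y in tube δ e a, ‖h y‖ₑ

/-- The surface measure of the unit sphere. -/
noncomputable def surf (n : ℕ) : Measure (sphere (0 : E n) 1) := (volume : Measure (E n)).toSphere

/-- `φ` is the Fourier transform of the square integrable function `f`: both are in `L²` and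
`∫ f ĝ = ∫ φ g` for all real test functions `g`, where `ĝ(x) = ∫ g(ξ) e^(-2πi x·ξ) dξ`. -/
def IsFourierTransform {n : ℕ} (f φ : E n → ℂ) : Prop :=
  MemLp f 2 volume ∧ MemLp φ 2 volume ∧ ∀ g : E n → ℝ,
    ContDiff ℝ ((⊤ : ℕ∞) : WithTop ℕ∞) g → HasCompactSupport g →
    ∫ x, f x * (∫ ξ, Complex.exp (-(2 * Real.pi * ⟪x, ξ⟫ : ℝ) * Complex.I) * g ξ) =
      ∫ ξ, φ ξ * g ξ

/-- `F` is a Fourier majorant of `f`: both are square integrable, the Fourier transform of `F` is
real and at least the absolute value of the Fourier transform of `f`, almost everywhere. -/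
def IsMajorant {n : ℕ} (f F : E n → ℂ) : Prop :=
  ∃ φ Φ : E n → ℂ, IsFourierTransform f φ ∧ IsFourierTransform F Φ ∧
    ∀ᵐ ξ : E n, (Φ ξ).im = 0 ∧ ‖φ ξ‖ ≤ (Φ ξ).re

/-- `|h|` is at most the sum of the square integrable functions `f k ≥ 0`, where `f k` vanishes
outside of `A k`, every ball of radius `2` meets at most `N` of the sets `A k`, and `F k` is a Fourier
majorant of `f k`. -/
def LocallyMajorized {n : ℕ} (N : ℕ) (h : E n → ℝ) (F : ℕ → E n → ℂ) : Prop :=
  ∃ (f : ℕ → E n → ℝ) (A : ℕ → Set (E n)), (∀ k, IsMajorant (fun x => (f k x : ℂ)) (F k)) ∧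
    (∀ k x, 0 ≤ f k x) ∧ (∀ k x, x ∉ A k → f k x = 0) ∧
    (∀ a, {k | (A k ∩ closedBall a 2).Nonempty}.encard ≤ N) ∧
    (∀ᵐ x : E n, ‖h x‖ₑ ≤ ∑' k, ‖f k x‖ₑ)

/-- **The Kakeya maximal function and Fourier majorants.** -/
theorem result (n : ℕ) (hn : 2 ≤ n) : ∃ C : ℝ, 0 < C ∧ ∀ (p : ℝ), 1 ≤ p → p ≤ n →
    ∀ (N : ℕ) (h : E n → ℝ) (F : ℕ → E n → ℂ) (δ : ℝ), 0 < δ → δ < 1 → LocallyMajorized N h F →
      ∫⁻ e, kakeyaMax δ h (e : E n) ^ p ∂(surf n) ≤
        ENNReal.ofReal (C * (N : ℝ) ^ (p - 1) * δ ^ (-(n - p)) *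
          (1 + Real.log (1 / δ)) ^ (p - 1)) * ∑' k, ∫⁻ y, ‖F k y‖ₑ ^ p := by
  obtain ⟨m, rfl⟩ : ∃ m, n = m + 1 := ⟨n - 1, by omega⟩
  obtain ⟨C, hC, hmain⟩ := Pool.Agent.W2helper16.KM.main m
  refine ⟨C, hC, ?_⟩
  rintro p hp hpn N h F δ hδ hδ1 ⟨f, A, h1, h2, h3, h4, h5⟩
  have hpn' : p ≤ m + 1 := by exact_mod_cast hpn
  choose hf hF hM using fun k => Pool.Agent.W2helper16.KM.maj_of (h1 k)
  have hfe : ∀ k, ∀ᵐ x : E (m + 1), (hf k).toLp _ x = ((f k x : ℝ) : ℂ) := fun k =>
    (hf k).coeFn_toLp
  have hFe : ∀ k, ∀ᵐ x : E (m + 1), (hF k).toLp _ x = F k x := fun k => (hF k).coeFn_toLp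
  have h6 := hmain p hp hpn' N (fun k => (hf k).toLp _) (fun k => (hF k).toLp _) A h δ hδ hδ1 hM
    (fun k => by
      filter_upwards [hfe k] with x hx
      rw [hx, Complex.norm_real, Real.norm_of_nonneg (h2 k x)])
    (fun k => by
      filter_upwards [hfe k] with x hx hxA
      rw [hx, h3 k x hxA, Complex.ofReal_zero]) h4
    (by
      filter_upwards [h5, ae_all_iff.2 hfe] with x hx1 hx2
      refine hx1.trans (le_of_eq ?_)
      congr 1
      funext k
      rw [hx2 k, ← ofReal_norm, ← ofReal_norm, Complex.norm_real])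
  have h7 : ((m + 1 : ℕ) : ℝ) = m + 1 := by push_cast; rfl
  have h8 : ∀ k, ∫⁻ y, ‖(hF k).toLp _ y‖ₑ ^ p = ∫⁻ y, ‖F k y‖ₑ ^ p := fun k =>
    lintegral_congr_ae (by filter_upwards [hFe k] with y hy; rw [hy])
  simp only [h8] at h6
  rw [h7]
  exact h6

end Pool.Agent.Results.MP_5168f5_an.FourierMajorant
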