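import Pool.Agent.W2helper94.FW.S

set_option autoImplicit false

/-!
# MP_5168f5: the Kakeya maximal estimate for tubes that run along the rays of arbitrary wave fronts

Work in `ℝ^{d+1} = ℝ^d × ℝ` (`Space d`), `n = d + 1 ≥ 2`.  For `v` in the closed unit ball of `ℝ^d` the
line number `v` of the family given by `b : ℝ^d → ℝ^d` is `{(b v + s v, s) : s ∈ ℝ}`; its direction
is `(v, 1)`.  `lineMax δ b f v` is the supremum of the averages of `|f|` over the `δ`-tubes of length
one with axis on the line number `v`.  By measurable selection the Kakeya maximal conjecture is the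
estimate below for *all* measurable `b`.  `partMax` is the same maximal function, except that only the
parts of the tubes are used which have a height `s` with `s - h ∈ P`; `h` may depend on `v`.  For
`P = univ` it is equal to `lineMax`.

Let `φ` be a convex function on `ℝ^d` and let `D` be a measurable set of directions in the unit ball on
which `φ(v) ≥ φ(v₀) + κ |v - v₀|` for some point `v₀` and some `κ > 0`.  (For norms, gauges, and all
convex functions with a sharp minimum this holds for the whole ball; if `φ` has no minimum in the closed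
unit ball it holds for the whole ball, with a suitable `v₀` outside; in general it holds for the set
`φ ≥ min φ + γ`, `γ > 0`.)  The directions `v ∈ D` with `φ(v) = a` form the leaf number `a`.  The lines
over the leaf number `a` start at an arbitrary height `σ a`.

**Theorem** (`result`).  Let `P` be any measurable set of relative heights.  If, at these heights, the
lines over each leaf are outgoing in the sense of `φ` and do not focus, then the maximal function
satisfies the estimate of the Kakeya maximal conjecture: at the critical exponent `p = n` with a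
logarithmic loss, and at `2 ≤ p ≤ n` with the sharp power `δ^(-(n-p))`, up to logarithms.  There is no
condition which relates different leaves.

**Concurrent families** (`concurrent`).  The conditions hold for `P = univ` if all the lines over the
leaf number `a` pass through one point `(x a, σ a)`, where `x` and `σ` are *arbitrary* measurable
functions.  This gives the estimate for the whole tubes.

**Wave fronts** (`fronts`).  Let `φ(v) = |v - v₀|`, `v₀` arbitrary.  For every `a` let `A a ⊆ ℝ^d` be an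
*arbitrary* set, and suppose that every line over the leaf number `a` leaves the set `A a`, at the height
`σ a`, along a shortest segment: its starting point `p` is a point of `A a` nearest to `p + t (v - v₀)`,
for `0 < t ≤ 2 H`.  (For `v₀ = 0` this is the point of the line at the height `σ a + t`; for `v₀ ≠ 0` it
is this point in a moving frame.)  So the lines over a leaf are rays of the wave front which starts
from the set `A a`; the sets `A a` for different `a` are not related at all.  Examples: the outer normals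
of arbitrary convex bodies `A a`; the normals of arbitrary surfaces, as long as they are shortest; points.
Then the conditions hold for `P = (0, H]`.

Idea of the proof.  Let `w` be a direction with `φ(w) = a' < a`.  As `φ` is convex and the lines over the
leaf number `a` are outgoing, the line number `w` is within `r` of the union of these lines only for a set
of relative heights in `P` of length `C r / (a - a')`, whatever the starting points are.  Hence the lines
of *larger* label which are `r`-close to a given line are few; this one sided bound suffices for the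
estimate for all sets of directions.
-/

open MeasureTheory Set ENNReal NNReal Metric

namespace Pool.Agent.Results.MP_5168f5_an.FrontFamilies

/-- Euclidean space `ℝ^d`. -/
abbrev Vec (d : ℕ) : Type := EuclideanSpace ℝ (Fin d)

/-- Euclidean space `ℝ^{d+1}`, written as `ℝ^d × ℝ` with the Euclidean norm. -/
abbrev Space (d : ℕ) : Type := WithLp 2 (Vec d × ℝ)

/-- The closed tube of length `1` and radius `δ` with centre `a` and axis direction `e`. -/
def tube {d : ℕ} (δ : ℝ) (e a : Space d) : Set (Space d) :=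
  {y | |inner ℝ (y - a) e| ≤ 1 / 2 ∧ ‖(y - a) - (inner ℝ (y - a) e : ℝ) • e‖ ≤ δ}

/-- The unit vector `(v, 1)/√(1+|v|²)`. -/
noncomputable def dir {d : ℕ} (v : Vec d) : Space d :=
  (√(1 + ‖v‖ ^ 2))⁻¹ • WithLp.toLp 2 (v, (1:ℝ))

/-- The point of height `s` on the line `{(b v + s v, s)}`. -/
noncomputable def linePt {d : ℕ} (b : Vec d → Vec d) (v : Vec d) (s : ℝ) : Space d :=
  WithLp.toLp 2 (b v + s • v, s)

/-- Supremum of the averages of `|f|` over the `δ`-tubes with axis on the line number `v`. -/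
noncomputable def lineMax {d : ℕ} (δ : ℝ) (b : Vec d → Vec d) (f : Space d → ℝ) (v : Vec d) : ℝ≥0∞ :=
  ⨆ s : ℝ, (volume (tube δ (dir v) (linePt b v s)))⁻¹ *
    ∫⁻ y in tube δ (dir v) (linePt b v s), ‖f y‖ₑ

/-- The same with the parts of the tubes at the heights `s` with `s - h ∈ P`. -/
noncomputable def partMax {d : ℕ} (δ : ℝ) (P : Set ℝ) (h : ℝ) (b : Vec d → Vec d)
    (f : Space d → ℝ) (v : Vec d) : ℝ≥0∞ :=
  ⨆ s : ℝ, (volume (tube δ (dir v) (linePt b v s)))⁻¹ *
    ∫⁻ y in tube δ (dir v) (linePt b v s) ∩ {y : Space d | y.snd - h ∈ P}, ‖f y‖ₑ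

/-- The estimates of the Kakeya maximal conjecture on the set `D` of directions, for all exponents
`p ≥ 2`, with the constants `C p` and logarithmic losses, for the maximal function `M`. -/
def Bounds {d : ℕ} (C : ℝ → ℝ) (D : Set (Vec d)) (M : ℝ → (Space d → ℝ) → Vec d → ℝ≥0∞) : Prop :=
  ∀ (p δ : ℝ) (f : Space d → ℝ), 2 ≤ p → 0 < δ → δ < 1 → AEMeasurable f volume →
    ∫⁻ v in D, M δ f v ^ p ≤
      ENNReal.ofReal (C p * (1 + Real.log (1 / δ)) ^ (p + 2) *
        δ ^ (-(max 0 ((d : ℝ) + 1 - p)))) * ∫⁻ y, ‖f y‖ₑ ^ p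

/-- The starting point of the line number `v`: the point of the line at the height `σ (φ v)`. -/
def start {d : ℕ} (φ : Vec d → ℝ) (σ : ℝ → ℝ) (b : Vec d → Vec d) (v : Vec d) : Vec d :=
  b v + σ (φ v) • v

/-- For every `v ∈ D` the line number `v` passes through the vertex `(x a, σ a)`, `a = φ v`. -/
def Concurrent {d : ℕ} (D : Set (Vec d)) (φ : Vec d → ℝ) (x : ℝ → Vec d) (σ : ℝ → ℝ)
    (b : Vec d → Vec d) : Prop :=
  ∀ v ∈ D, start φ σ b v = x (φ v)

/-- The starting point `p` of the line number `v ∈ D` is in `A a`, `a = |v - v₀|`, and it is a point of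
`A a` nearest to `p + t (v - v₀)` for all `0 < t ≤ T`. -/
def Shortest {d : ℕ} (T : ℝ) (D : Set (Vec d)) (v₀ : Vec d) (A : ℝ → Set (Vec d)) (σ : ℝ → ℝ)
    (b : Vec d → Vec d) : Prop :=
  ∀ v ∈ D, start (fun v => ‖v - v₀‖) σ b v ∈ A ‖v - v₀‖ ∧ ∀ t : ℝ, 0 < t → t ≤ T →
    ∀ q ∈ A ‖v - v₀‖, ‖t • (v - v₀)‖ ≤ ‖start (fun v => ‖v - v₀‖) σ b v + t • (v - v₀) - q‖

/-- At the relative heights in `P` the lines with the same label are outgoing: the direction of the line
from any starting point to the point of the line number `v` at the relative height `t` has at least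
the label of `v`. -/
def Outgoing {d : ℕ} (P : Set ℝ) (D : Set (Vec d)) (φ : Vec d → ℝ) (σ : ℝ → ℝ)
    (b : Vec d → Vec d) : Prop :=
  ∀ v ∈ D, ∀ v' ∈ D, φ v = φ v' → ∀ t ∈ P, t ≠ 0 →
    φ v ≤ φ (v + t⁻¹ • (start φ σ b v - start φ σ b v'))

/-- At the relative heights in `P` the lines with the same label do not focus: their distance is at
least `β` times the distance of lines with these directions and a common starting point. -/
def Nonfocusing {d : ℕ} (P : Set ℝ) (β : ℝ) (D : Set (Vec d)) (φ : Vec d → ℝ) (σ : ℝ → ℝ)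
    (b : Vec d → Vec d) : Prop :=
  ∀ v ∈ D, ∀ v' ∈ D, φ v = φ v' → ∀ t ∈ P,
    β * ‖t • (v - v')‖ ≤ ‖(start φ σ b v + t • v) - (start φ σ b v' + t • v')‖

open Pool.Agent.W2helper94.KC Pool.Agent.W2helper94.CV Pool.Agent.W2helper94.FW

theorem norm_convex {d : ℕ} (v₀ : Vec d) : ConvexOn ℝ univ (fun v : Vec d => ‖v - v₀‖) := by
  have h := (convexOn_univ_norm (E := Vec d)).translate_right (-v₀)
  have e : (fun v : Vec d => ‖v - v₀‖) = (norm ∘ fun z : Vec d => -v₀ + z) := by
    funext v
    simp [sub_eq_neg_add]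
  rw [e]
  simpa using h

theorem maxSharp {d : ℕ} {φ : Vec d → ℝ} (hφ : ConvexOn ℝ univ φ) (v₀ : Vec d) {κ : ℝ} (hκ : 0 < κ) :
    Sharp (fun v => max (φ v) (φ v₀ + κ * ‖v - v₀‖)) v₀ κ := by
  refine ⟨?_, hκ, ?_⟩
  · apply hφ.sup
    exact (convexOn_const (φ v₀) convex_univ).add ((norm_convex v₀).smul hκ.le)
  · intro v
    simp only [sub_self, norm_zero, mul_zero, add_zero, max_self]
    exact le_max_right _ _

/-- The partial maximal function is the maximal function of the restricted function. -/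
theorem partMax_eq {d : ℕ} {δ : ℝ} {P : Set ℝ} (hP : MeasurableSet P) {h : ℝ}
    {b b' : Vec d → Vec d} {f g : Space d → ℝ} (hfg : f =ᵐ[volume] g) {v : Vec d} (hb : b v = b' v) :
    partMax δ P h b f v = Pool.Agent.H803R2.KakFTO.lineMax δ b' (cut P h g) v := by
  unfold partMax Pool.Agent.H803R2.KakFTO.lineMax
  have e : ∀ s, linePt b v s = Pool.Agent.H803R2.KakFTO.linePt b' v s := by
    intro s
    unfold linePt Pool.Agent.H803R2.KakFTO.linePt
    rw [hb]
  congr 1
  ext s
  rw [e]
  congr 1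
  have hm := measurableSet_cut (d := d) hP h
  have e1 : ∀ y, ‖cut P h g y‖ₑ = {y : Space d | y.snd - h ∈ P}.indicator (fun y => ‖g y‖ₑ) y := by
    intro y
    unfold cut
    by_cases hy : y ∈ {y : Space d | y.snd - h ∈ P}
    · rw [indicator_of_mem hy, indicator_of_mem hy]
    · rw [indicator_of_notMem hy, indicator_of_notMem hy, enorm_zero]
  calc ∫⁻ y in tube δ (dir v) (Pool.Agent.H803R2.KakFTO.linePt b' v s) ∩
        {y : Space d | y.snd - h ∈ P}, ‖f y‖ₑ
      = ∫⁻ y in tube δ (dir v) (Pool.Agent.H803R2.KakFTO.linePt b' v s) ∩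
        {y : Space d | y.snd - h ∈ P}, ‖g y‖ₑ := by
        apply lintegral_congr_ae
        filter_upwards [ae_restrict_of_ae hfg] with y hy
        rw [hy]
    _ = ∫⁻ y in tube δ (dir v) (Pool.Agent.H803R2.KakFTO.linePt b' v s), ‖cut P h g y‖ₑ := by
        rw [lintegral_congr e1, lintegral_indicator hm, Measure.restrict_restrict hm, inter_comm]

/-- The general theorem. -/
theorem general (d : ℕ) (hd : 1 ≤ d) (φ : Vec d → ℝ) (hφ : ConvexOn ℝ univ φ) (v₀ : Vec d) (κ β : ℝ)
    (hκ : 0 < κ) (hβ : 0 < β) :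
    ∃ C : ℝ → ℝ, ∀ (P : Set ℝ) (D : Set (Vec d)), MeasurableSet P → MeasurableSet D →
      D ⊆ closedBall 0 1 → (∀ v ∈ D, φ v₀ + κ * ‖v - v₀‖ ≤ φ v) →
      ∀ (σ : ℝ → ℝ) (b : Vec d → Vec d), Measurable σ → Measurable b →
      Outgoing P D φ σ b → Nonfocusing P β D φ σ b →
      Bounds C D (fun δ f v => partMax δ P (σ (φ v)) b f v) := by
  obtain ⟨m, rfl⟩ : ∃ m, d = m + 1 := ⟨d - 1, by omega⟩
  set ψ : Vec (m + 1) → ℝ := fun v => max (φ v) (φ v₀ + κ * ‖v - v₀‖) with hψ
  have hsh : Sharp ψ v₀ κ := maxSharp hφ v₀ hκ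
  obtain ⟨C0, hC0, hrow⟩ := rowP hsh hβ
  have hK : ∀ p : ℝ, ∃ K : ℝ, 2 ≤ p → ∀ (P : Set ℝ), MeasurableSet P → ∀ (D : Set (E (m + 1)))
    (φ : E (m + 1) → ℝ) (b : E (m + 1) → E (m + 1)) (τ : E (m + 1) → ℝ),
    Pool.Agent.W2helper94.FW.RowBd P D φ b τ C0 →
    Measurable φ → Measurable b → Measurable τ →
    MeasurableSet D → D ⊆ closedBall 0 1 → ∀ (δ : ℝ), 0 < δ → δ < 1 →
    ∀ (f : Space (m + 1) → ℝ), Measurable f →
    ∫⁻ v in D, Pool.Agent.H803R2.KakFTO.lineMax δ b (cut P (τ v) f) v ^ p ≤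
      ENNReal.ofReal (K * (1 + Real.log (1 / δ)) ^ (p + 2) * loss (m + 1) p δ) *
        ∫⁻ y, ‖f y‖ₑ ^ p := by
    intro p
    by_cases hp : 2 ≤ p
    · obtain ⟨K, -, hK⟩ := Pool.Agent.W2helper94.FW.lines hd hC0.le hp
      exact ⟨K, fun _ => hK⟩
    · exact ⟨0, fun h => absurd h hp⟩
  choose K hK using hK
  refine ⟨K, ?_⟩
  intro P D hP hD hDB hmin σ b hσ hb hA hB p δ f hp hδ hδ1 hf
  have hψD : ∀ v ∈ D, ψ v = φ v := fun v hv => max_eq_left (hmin v hv)
  have hφψ : ∀ v, φ v ≤ ψ v := fun v => le_max_left _ _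
  have hψm : Measurable ψ := hsh.cont.measurable
  set q : Vec (m + 1) → Vec (m + 1) := fun v => b v + σ (ψ v) • v with hq
  have hqm : Measurable q := hb.add ((hσ.comp hψm).smul measurable_id)
  have hqD : ∀ v ∈ D, start φ σ b v = q v := by
    intro v hv
    rw [hq]
    simp only
    rw [hψD v hv]
    rfl
  have hrow' := hrow P D q σ hP hD hDB hqm hσ
    (fun v hv v' hv' hvv t ht ht0 => by
      rw [hψD v hv, hψD v' hv'] at hvv
      have h1 := hA v hv v' hv' hvv t ht ht0
      rw [hqD v hv, hqD v' hv'] at h1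
      rw [hψD v hv]
      exact h1.trans (hφψ _))
    (fun v hv v' hv' hvv t ht _ => by
      rw [hψD v hv, hψD v' hv'] at hvv
      have h1 := hB v hv v' hv' hvv t ht
      rwa [hqD v hv, hqD v' hv'] at h1)
  set b' : Vec (m + 1) → Vec (m + 1) := fun v => q v - σ (ψ v) • v with hb'
  have hb'm : Measurable b' := hqm.sub ((hσ.comp hψm).smul measurable_id)
  have hbb : ∀ v, b v = b' v := by
    intro v
    rw [hb', hq]
    simp
  have hmain := hK p hp P hP D ψ b' (fun v => σ (ψ v)) hrow' hψm hb'm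
    (hσ.comp hψm) hD hDB δ hδ hδ1 (hf.mk f) hf.measurable_mk
  have e1 : ∫⁻ y, ‖f y‖ₑ ^ p = ∫⁻ y, ‖hf.mk f y‖ₑ ^ p := by
    apply lintegral_congr_ae
    filter_upwards [hf.ae_eq_mk] with q hq
    rw [hq]
  have e2 : ∫⁻ v in D, partMax δ P (σ (φ v)) b f v ^ p =
      ∫⁻ v in D, Pool.Agent.H803R2.KakFTO.lineMax δ b' (cut P (σ (ψ v)) (hf.mk f)) v ^ p := by
    apply setLIntegral_congr_fun hD
    intro v hv
    have h1 : partMax δ P (σ (φ v)) b f v =
        Pool.Agent.H803R2.KakFTO.lineMax δ b' (cut P (σ (ψ v)) (hf.mk f)) v := by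
      rw [hψD v hv]
      exact partMax_eq hP hf.ae_eq_mk (hbb v)
    show partMax δ P (σ (φ v)) b f v ^ p = _
    rw [h1]
  rw [e1]
  show ∫⁻ v in D, partMax δ P (σ (φ v)) b f v ^ p ≤ _
  rw [e2]
  refine hmain.trans (le_of_eq ?_)
  unfold loss
  push_cast
  rfl

theorem lineMax_eq_partMax {d : ℕ} (δ h : ℝ) {b b' : Vec d → Vec d} (f : Space d → ℝ) {v : Vec d}
    (hb : b v = b' v) : lineMax δ b f v = partMax δ univ h b' f v := by
  unfold lineMax partMax linePt
  rw [hb]
  congr 1
  ext s
  congr 2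
  simp

/-- Concurrent families. -/
theorem concurrent (d : ℕ) (hd : 1 ≤ d) (φ : Vec d → ℝ) (hφ : ConvexOn ℝ univ φ) (v₀ : Vec d) (κ : ℝ)
    (hκ : 0 < κ) :
    ∃ C : ℝ → ℝ, ∀ (D : Set (Vec d)), MeasurableSet D →
      D ⊆ closedBall 0 1 → (∀ v ∈ D, φ v₀ + κ * ‖v - v₀‖ ≤ φ v) →
      ∀ (x : ℝ → Vec d) (σ : ℝ → ℝ) (b : Vec d → Vec d), Measurable x → Measurable σ →
      Concurrent D φ x σ b → Bounds C D (fun δ f v => lineMax δ b f v) := by
  obtain ⟨C, hC⟩ := general d hd φ hφ v₀ κ 1 hκ one_pos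
  refine ⟨C, ?_⟩
  intro D hD hDB hmin x σ b hx hσ hb p δ f hp hδ hδ1 hf
  have hφc : Continuous φ := by
    rw [← continuousOn_univ]
    exact hφ.continuousOn isOpen_univ
  have hφm : Measurable φ := hφc.measurable
  set b' : Vec d → Vec d := fun v => x (φ v) - σ (φ v) • v with hb'
  have hb'm : Measurable b' := (hx.comp hφm).sub ((hσ.comp hφm).smul measurable_id)
  have hbb : ∀ v ∈ D, b v = b' v := by
    intro v hv
    have h1 := hb v hv
    rw [hb']
    simp only
    rw [← h1]
    unfold start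
    abel
  have hst : ∀ v, start φ σ b' v = x (φ v) := by
    intro v
    unfold start
    rw [hb']
    simp
  have h1 := hC univ D MeasurableSet.univ hD hDB hmin σ b' hσ hb'm
    (fun v _ v' _ hvv t _ _ => by rw [hst, hst, hvv, sub_self, smul_zero, add_zero, ← hvv])
    (fun v _ v' _ hvv t _ => by
      rw [hst, hst, hvv, one_mul, smul_sub]
      apply le_of_eq
      congr 1
      abel) p δ f hp hδ hδ1 hf
  refine le_trans (le_of_eq ?_) h1
  apply setLIntegral_congr_fun hD
  intro v hv
  show lineMax δ b f v ^ p = partMax δ univ (σ (φ v)) b' f v ^ p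
  rw [lineMax_eq_partMax δ (σ (φ v)) f (hbb v hv)]

/-- Wave fronts. -/
theorem fronts (d : ℕ) (hd : 1 ≤ d) (v₀ : Vec d) :
    ∃ C : ℝ → ℝ, ∀ (H : ℝ) (D : Set (Vec d)), MeasurableSet D → D ⊆ closedBall 0 1 →
      ∀ (A : ℝ → Set (Vec d)) (σ : ℝ → ℝ) (b : Vec d → Vec d), Measurable σ → Measurable b →
      Shortest (2 * H) D v₀ A σ b →
      Bounds C D (fun δ f v => partMax δ (Ioc 0 H) (σ ‖v - v₀‖) b f v) := by
  obtain ⟨C, hC⟩ := general d hd (fun v => ‖v - v₀‖) (norm_convex v₀) v₀ 1 1 one_pos one_pos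
  refine ⟨C, ?_⟩
  intro H D hD hDB A σ b hσ hb hsh
  have hkey : ∀ v ∈ D, ∀ v' ∈ D, ‖v - v₀‖ = ‖v' - v₀‖ → ∀ t : ℝ, 0 < t → t ≤ 2 * H →
      t * ‖v - v₀‖ ≤ ‖(start (fun v => ‖v - v₀‖) σ b v - start (fun v => ‖v - v₀‖) σ b v') +
        t • (v - v₀)‖ := by
    intro v hv v' hv' hvv t ht0 ht1
    have h1 := (hsh v hv).2 t ht0 ht1 _ (by rw [hvv]; exact (hsh v' hv').1)
    rw [norm_smul, Real.norm_eq_abs, abs_of_pos ht0] at h1
    have e : (start (fun v => ‖v - v₀‖) σ b v - start (fun v => ‖v - v₀‖) σ b v') +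
        t • (v - v₀) = start (fun v => ‖v - v₀‖) σ b v + t • (v - v₀) -
          start (fun v => ‖v - v₀‖) σ b v' := by abel
    rw [e]
    exact h1
  refine hC (Ioc 0 H) D measurableSet_Ioc hD hDB (fun v _ => by simp) σ b hσ hb ?_ ?_
  · intro v hv v' hv' hvv t ht _
    have h0 : 0 < t := ht.1
    have h1 := hkey v hv v' hv' hvv t h0 (by linarith [ht.2])
    simp only
    have e : v + t⁻¹ • (start (fun v => ‖v - v₀‖) σ b v - start (fun v => ‖v - v₀‖) σ b v') - v₀ =
        t⁻¹ • ((start (fun v => ‖v - v₀‖) σ b v - start (fun v => ‖v - v₀‖) σ b v') +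
          t • (v - v₀)) := by
      rw [smul_add, smul_smul, inv_mul_cancel₀ h0.ne', one_smul]
      abel
    rw [e, norm_smul, norm_inv, Real.norm_eq_abs, abs_of_pos h0, inv_mul_eq_div, le_div_iff₀ h0]
    linarith
  · intro v hv v' hv' hvv t ht
    have h0 : 0 < t := ht.1
    have h1 := hkey v hv v' hv' hvv (2 * t) (by positivity) (by linarith [ht.2])
    have h2 := hkey v' hv' v hv hvv.symm (2 * t) (by positivity) (by linarith [ht.2])
    have h3 := spread_of_shortest (x := v - v₀) (x' := v' - v₀)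
      (q := start (fun v => ‖v - v₀‖) σ b v - start (fun v => ‖v - v₀‖) σ b v') (t := t)
      h0 h1 (by rw [neg_sub]; exact h2)
    have e1 : (v - v₀) - (v' - v₀) = v - v' := by abel
    rw [e1] at h3
    rw [one_mul, norm_smul, Real.norm_eq_abs, abs_of_pos h0]
    have e2 : (start (fun v => ‖v - v₀‖) σ b v + t • v) -
        (start (fun v => ‖v - v₀‖) σ b v' + t • v') =
        (start (fun v => ‖v - v₀‖) σ b v - start (fun v => ‖v - v₀‖) σ b v') + t • (v - v') := by
      module
    rw [e2]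
    exact h3

/-- **The Kakeya maximal estimate for outgoing families that do not focus** (in particular for families
which are concurrent over the level sets of a convex function, and for the rays of arbitrary wave
fronts). -/
theorem result (d : ℕ) (hd : 1 ≤ d) (φ : Vec d → ℝ) (hφ : ConvexOn ℝ univ φ) (v₀ : Vec d) (κ β : ℝ)
    (hκ : 0 < κ) (hβ : 0 < β) :
    ∃ C : ℝ → ℝ, ∀ (P : Set ℝ) (D : Set (Vec d)), MeasurableSet P → MeasurableSet D →
      D ⊆ closedBall 0 1 → (∀ v ∈ D, φ v₀ + κ * ‖v - v₀‖ ≤ φ v) →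
      ∀ (σ : ℝ → ℝ) (b : Vec d → Vec d), Measurable σ → Measurable b →
      Outgoing P D φ σ b → Nonfocusing P β D φ σ b →
      ∀ (p δ : ℝ) (f : Space d → ℝ), 2 ≤ p → 0 < δ → δ < 1 → AEMeasurable f volume →
        ∫⁻ v in D, partMax δ P (σ (φ v)) b f v ^ p ≤
          ENNReal.ofReal (C p * (1 + Real.log (1 / δ)) ^ (p + 2) *
            δ ^ (-(max 0 ((d : ℝ) + 1 - p)))) * ∫⁻ y, ‖f y‖ₑ ^ p :=
  general d hd φ hφ v₀ κ β hκ hβ

end Pool.Agent.Results.MP_5168f5_an.FrontFamilies
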