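import Pool.Agent.W2helper36.LN.Final

set_option autoImplicit false

/-!
# MP_5168f5: Kakeya maximal estimates for locally nondeterministic random families of lines, and
for small continuous random perturbations of arbitrary families

Work in `ℝ^{d+1} = ℝ^d × ℝ` (`Space d`), `n = d + 1 ≥ 2`.  For `v` in the closed unit ball of `ℝ^d`
the line number `v` of the family given by `b : ℝ^d → ℝ^d` is `{(b v + s v, s) : s ∈ ℝ}`; its
direction is `(v, 1)`.  `lineMax δ b f v` is the supremum of the averages of `|f|` over the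
`δ`-tubes of length one with axis on the line number `v`.  By measurable selection the Kakeya
maximal conjecture is an estimate for *all* measurable `b`.

1. *Criterion.*  A random family `b` is *locally nondeterministic* with the constant `κ` and the
   dimension `α` if, conditionally on the lines number `w` with `|w - v| ≥ ρ`, the probability that
   `b v` lies in a given ball of radius `r` is at most `(r / (κ ρ))^α`, for all `ρ ≤ 1`.  Then, outside an
   event of probability `e^(-u)`, at all scales `δ` and for all functions `f` at once: through every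
   ball of radius `r` pass at most a set of directions of measure
   `C u κ^(-α) r^α (1 + log (1/r))^2`, and the maximal function satisfies the *unweighted* `L^p`
   estimates for all `p ≥ 1`, with the loss `C u κ^(-α) δ^(-(d-α)) (1 + log (1/δ))^2`.  For `α = d`
   there is no power of `δ`.
2. *Small perturbations.*  For every `0 < κ ≤ 1` there is a random continuous map `g`, bounded by
   `κ`, such that for every measurable family `b₀` the random family `b₀ + g` satisfies these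
   estimates with `α = d` (the law of `g` does not depend on `b₀`).
3. *Density.*  Within the distance `κ` of every measurable (continuous) family there is a measurable
   (continuous) family that satisfies the estimates at all scales with the constants `C κ^(-d)`.
4. *Sharpness.*  For no family within `κ` of the bush `b₀ = 0` the constant of the estimate in `L^1`
   is better than `c κ^(-d)`.

Proof.  Sequential conditioning bounds the moments of the multiplicity function at one point by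
`m! S^m`, with `S` the integral of the concentration function; so the multiplicity has exponential
moments, and a union bound in the integrated form over all points and all dyadic scales is
possible.  The noise `g` is a sum over the dyadic generations of independent vectors, uniformly
distributed on balls, times hat functions.
-/

open MeasureTheory Set ENNReal NNReal Metric ProbabilityTheory

namespace Pool.Agent.Results.MP_5168f5_an.NoisyFamilies

/-- Euclidean space `ℝ^d`. -/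
abbrev Vec (d : ℕ) : Type := EuclideanSpace ℝ (Fin d)

/-- Euclidean space `ℝ^{d+1}`, written as `ℝ^d × ℝ` with the Euclidean norm. -/
abbrev Space (d : ℕ) : Type := WithLp 2 (Vec d × ℝ)

/-- The closed tube of length `1` and radius `δ` with centre `a` and axis direction `e`. -/
def tube {d : ℕ} (δ : ℝ) (e a : Space d) : Set (Space d) :=
  {y | |inner ℝ (y - a) e| ≤ 1 / 2 ∧ ‖(y - a) - (inner ℝ (y - a) e : ℝ) • e‖ ≤ δ}

/-- The unit vector `(v, 1)/√(1+|v|²)`. -/
noncomputable def dir {d : ℕ} (v : Vec d) : Space d :=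
  (√(1 + ‖v‖ ^ 2))⁻¹ • WithLp.toLp 2 (v, (1:ℝ))

/-- The point of height `s` on the line `{(b v + s v, s)}`. -/
noncomputable def linePt {d : ℕ} (b : Vec d → Vec d) (v : Vec d) (s : ℝ) : Space d :=
  WithLp.toLp 2 (b v + s • v, s)

/-- Supremum of the averages of `|f|` over the `δ`-tubes with axis on the line number `v`. -/
noncomputable def lineMax {d : ℕ} (δ : ℝ) (b : Vec d → Vec d) (f : Space d → ℝ) (v : Vec d) : ℝ≥0∞ :=
  ⨆ s : ℝ, (volume (tube δ (dir v) (linePt b v s)))⁻¹ *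
    ∫⁻ y in tube δ (dir v) (linePt b v s), ‖f y‖ₑ

/-- `f` vanishes at the heights `t` with `|t| > H`. -/
def VanishesAbove {d : ℕ} (H : ℝ) (f : Space d → ℝ) : Prop :=
  ∀ (y : Vec d) (t : ℝ), H < |t| → f (WithLp.toLp 2 (y, t)) = 0

/-- The estimates, at all scales, for the heights `|t| ≤ H`: the measure of the set of the lines that
pass within `r` of the point `y` of height `t` is at most `K (1 + log (1/r))^2 (r/κ)^α`, and, for all
`p ≥ 1`, `∫ (M_δ f)^p ≤ A^p K (1 + log (1/δ))^2 κ^(-α) δ^(-(d-α)) ∫ |f|^p`. -/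
def Estimates {d : ℕ} (A K H κ α : ℝ) (b : Vec d → Vec d) : Prop :=
  (∀ (r t : ℝ) (y : Vec d), 0 < r → r ≤ 1 → |t| ≤ H →
    volume {v | ‖v‖ ≤ 1 ∧ ‖b v + t • v - y‖ ≤ r} ≤
      ENNReal.ofReal (K * (1 + Real.log (1 / r)) ^ 2 * (r / κ) ^ α)) ∧
  ∀ (p δ : ℝ) (f : Space d → ℝ), 1 ≤ p → 0 < δ → δ < 1 → Measurable f → VanishesAbove H f →
    ∫⁻ v in closedBall (0 : Vec d) 1, lineMax δ b f v ^ p ≤
      ENNReal.ofReal (A ^ p * K * (1 + Real.log (1 / δ)) ^ 2 * κ ^ (-α) * δ ^ (-((d : ℝ) - α))) *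
        ∫⁻ y, ‖f y‖ₑ ^ p

/-- The estimates for the random family `b`: for each `H`, with the constant `C H * u` outside an
event of probability at most `e^(-u)`; in particular almost surely, for all `H`, with some
constant. -/
def RandomEstimates {d : ℕ} {Ω : Type} [MeasurableSpace Ω] (A : ℝ) (C : ℝ → ℝ) (κ α : ℝ)
    (P : Measure Ω) (b : Ω → Vec d → Vec d) : Prop :=
  (∀ H u : ℝ, 0 ≤ H → 1 ≤ u → ∃ E : Set Ω, MeasurableSet E ∧
    P Eᶜ ≤ ENNReal.ofReal (Real.exp (-u)) ∧ ∀ ω ∈ E, Estimates A (C H * u) H κ α (b ω)) ∧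
  ∀ᵐ ω ∂P, ∀ H : ℝ, ∃ K : ℝ, Estimates A K H κ α (b ω)

/-- Local nondeterminism: conditionally on finitely many lines number `w i`, `|w i - v| ≥ ρ`, the
probability that `b v` is in a ball of radius `r` is at most `(r / (κ ρ)) ^ α`. -/
def LocallyNondeterministic {d : ℕ} {Ω : Type} [MeasurableSpace Ω] (P : Measure Ω) (κ α : ℝ)
    (b : Ω → Vec d → Vec d) : Prop :=
  ∀ (m : ℕ) (w : Fin m → Vec d) (v : Vec d) (ρ : ℝ), 0 < ρ → ρ ≤ 1 → ‖v‖ ≤ 1 → (∀ i, ‖w i‖ ≤ 1) →
    (∀ i, ρ ≤ ‖w i - v‖) → ∀ S : Set (Fin m → Vec d), MeasurableSet S → ∀ (x : Vec d) (r : ℝ), 0 < r →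
      P {ω | (fun i => b ω (w i)) ∈ S ∧ ‖b ω v - x‖ ≤ r} ≤
        ENNReal.ofReal ((r / (κ * ρ)) ^ α) * P {ω | (fun i => b ω (w i)) ∈ S}

section proof

variable {d : ℕ}

theorem Estimates.mono {A K H H' κ α : ℝ} {b : Vec d → Vec d} (h : Estimates A K H' κ α b)
    (hH : H ≤ H') : Estimates A K H κ α b :=
  ⟨fun r t y hr hr1 ht => h.1 r t y hr hr1 (ht.trans hH),
    fun p δ f hp hδ hδ1 hf hfH => h.2 p δ f hp hδ hδ1 hf (fun y t ht => hfH y t (lt_of_le_of_lt hH ht))⟩

theorem est {Ω : Type} [MeasurableSpace Ω] {b : Ω → Vec d → Vec d}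
    (hb : Measurable (fun z : Ω × Vec d => b z.1 z.2)) {κ α : ℝ} (hκ : 0 < κ) (hκ1 : κ ≤ 1)
    (hα : 0 ≤ α) (hαd : α ≤ d) {H : ℝ} (hH : 0 ≤ H) {u : ℝ} (hu : 1 ≤ u) {ω : Ω}
    (hω : ω ∈ Pool.Agent.W2helper36.LN.good b κ α H u) :
    Estimates (Pool.Agent.W2helper36.LN.AA d) (Pool.Agent.W2helper36.LN.CC d H * u) H κ α (b ω) := by
  have hov := Pool.Agent.W2helper36.LN.main_overlap hb hκ hα hαd hH hu hω
  have hg : Measurable (fun v : Vec d => (ω, v)) := measurable_const.prodMk measurable_id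
  have hbm : Measurable (b ω) := by
    have h0 := hb.comp hg
    exact h0
  have hC := Pool.Agent.W2helper36.LN.CC_pos d hH
  have hKv : (Pool.Agent.W2helper36.LN.vb d).toReal ≤ Pool.Agent.W2helper36.LN.CC d H * u := by
    have h0 := Pool.Agent.W2helper36.LN.C0_nonneg d hH
    have h1 : 0 ≤ Pool.Agent.W2helper36.LN.C1 d H := by
      unfold Pool.Agent.W2helper36.LN.C1; positivity
    have h2 : (Pool.Agent.W2helper36.LN.vb d).toReal ≤ Pool.Agent.W2helper36.LN.CC d H := by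
      unfold Pool.Agent.W2helper36.LN.CC; linarith
    nlinarith
  refine ⟨hov, ?_⟩
  intro p δ f hp hδ hδ1 hf hfH
  have key := Pool.Agent.W2helper36.LN.final hbm hκ hκ1 hα hαd hKv hov hδ hδ1 hp f hf
    (fun y t ht => hfH y t (by
      by_contra hcon
      exact ht (mem_Icc.2 (abs_le.1 (not_lt.1 hcon)))))
  simp only [one_mul, ENNReal.rpow_one] at key
  exact key

theorem random {Ω : Type} [MeasurableSpace Ω] {P : Measure Ω} [IsProbabilityMeasure P]
    {b : Ω → Vec d → Vec d} (hb : Measurable (fun z : Ω × Vec d => b z.1 z.2)) {κ α : ℝ}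
    (hκ : 0 < κ) (hκ1 : κ ≤ 1) (hα : 0 ≤ α) (hαd : α ≤ d)
    (hL : LocallyNondeterministic P κ α b) :
    RandomEstimates (Pool.Agent.W2helper36.LN.AA d) (Pool.Agent.W2helper36.LN.CC d) κ α P b := by
  have h1 : ∀ H u : ℝ, 0 ≤ H → 1 ≤ u → ∃ E : Set Ω, MeasurableSet E ∧
      P Eᶜ ≤ ENNReal.ofReal (Real.exp (-u)) ∧
      ∀ ω ∈ E, Estimates (Pool.Agent.W2helper36.LN.AA d) (Pool.Agent.W2helper36.LN.CC d H * u) H κ α
        (b ω) := fun H u hH hu =>
    ⟨_, Pool.Agent.W2helper36.LN.measurableSet_good hb κ α H u,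
      Pool.Agent.W2helper36.LN.P_good hb hκ hκ1 hα hαd hL hH u,
      fun ω hω => est hb hκ hκ1 hα hαd hH hu hω⟩
  refine ⟨h1, ?_⟩
  have h2 : ∀ N : ℕ, ∀ᵐ ω ∂P, ∃ K : ℝ, Estimates (Pool.Agent.W2helper36.LN.AA d) K N κ α (b ω) := by
    intro N
    rw [ae_iff]
    refine le_antisymm ?_ zero_le
    have h3 : ∀ n : ℕ, P {ω | ¬ ∃ K : ℝ, Estimates (Pool.Agent.W2helper36.LN.AA d) K N κ α (b ω)} ≤
        ENNReal.ofReal (Real.exp (-((n : ℝ) + 1))) := by
      intro n
      obtain ⟨E, _, hP, hE⟩ := h1 N ((n : ℝ) + 1) (Nat.cast_nonneg N) (by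
        have : (0 : ℝ) ≤ n := Nat.cast_nonneg n
        linarith)
      refine (measure_mono ?_).trans hP
      intro ω hω hωE
      exact hω ⟨_, hE ω hωE⟩
    have h4 : Filter.Tendsto (fun n : ℕ => ENNReal.ofReal (Real.exp (-((n : ℝ) + 1))))
        Filter.atTop (nhds 0) := by
      have h5 : Filter.Tendsto (fun n : ℕ => Real.exp (-((n : ℝ) + 1))) Filter.atTop (nhds 0) := by
        apply Real.tendsto_exp_neg_atTop_nhds_zero.comp
        exact Filter.tendsto_atTop_add_const_right _ _ tendsto_natCast_atTop_atTop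
      have h6 := ENNReal.tendsto_ofReal h5
      rwa [ENNReal.ofReal_zero] at h6
    exact ge_of_tendsto' h4 h3
  filter_upwards [ae_all_iff.2 h2] with ω hω
  intro H
  obtain ⟨N, hN⟩ := exists_nat_ge H
  obtain ⟨K, hK⟩ := hω N
  exact ⟨K, hK.mono hN⟩

theorem Estimates.monoK {A K K' H κ α : ℝ} {b : Vec d → Vec d} (hA : 0 ≤ A) (hκ : 0 < κ)
    (hKK : K ≤ K') (h : Estimates A K H κ α b) : Estimates A K' H κ α b := by
  refine ⟨fun r t y hr hr1 ht => (h.1 r t y hr hr1 ht).trans (ENNReal.ofReal_le_ofReal ?_),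
    fun p δ f hp hδ hδ1 hf hfH => (h.2 p δ f hp hδ hδ1 hf hfH).trans ?_⟩
  · gcongr
  · gcongr

theorem RandomEstimates.monoC {Ω : Type} [MeasurableSpace Ω] {A κ α : ℝ} {C C' : ℝ → ℝ}
    {P : Measure Ω} {b : Ω → Vec d → Vec d} (hA : 0 ≤ A) (hκ : 0 < κ)
    (hCC : ∀ H, 0 ≤ H → C H ≤ C' H) (h : RandomEstimates A C κ α P b) :
    RandomEstimates A C' κ α P b := by
  refine ⟨?_, h.2⟩
  intro H u hH hu
  obtain ⟨E, hE, hP, hEs⟩ := h.1 H u hH hu
  refine ⟨E, hE, hP, fun ω hω => (hEs ω hω).monoK hA hκ ?_⟩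
  exact mul_le_mul_of_nonneg_right (hCC H hH) (by linarith)

/-- Change of `κ` by a constant factor. -/
theorem Estimates.scale {A K H κ c : ℝ} {b : Vec d → Vec d} (hA : 0 ≤ A) (hK : 0 ≤ K)
    (hc : 0 < c) (hκ : 0 < κ) (h : Estimates A K H (c * κ) d b) :
    Estimates A (K * (c ^ d)⁻¹) H κ d b := by
  refine ⟨fun r t y hr hr1 ht => (h.1 r t y hr hr1 ht).trans (le_of_eq ?_),
    fun p δ f hp hδ hδ1 hf hfH => (h.2 p δ f hp hδ hδ1 hf hfH).trans (le_of_eq ?_)⟩
  · congr 1
    rw [Real.rpow_natCast, Real.rpow_natCast, div_pow, div_pow, mul_pow]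
    field_simp
  · congr 2
    have e1 : (c * κ) ^ (-(d : ℝ)) = (c ^ d)⁻¹ * (κ ^ d)⁻¹ := by
      rw [Real.rpow_neg (by positivity), Real.rpow_natCast, mul_pow, mul_inv]
    have e2 : κ ^ (-(d : ℝ)) = (κ ^ d)⁻¹ := by
      rw [Real.rpow_neg hκ.le, Real.rpow_natCast]
    rw [e1, e2]
    ring

/-- The constants for the perturbations. -/
noncomputable def cp (d : ℕ) (H : ℝ) : ℝ :=
  Pool.Agent.W2helper36.LN.CC d H * ((Pool.Agent.W2helper36.LN.Noise.cn d) ^ d)⁻¹

theorem cp_pos (hd : 1 ≤ d) {H : ℝ} (hH : 0 ≤ H) : 0 < cp d H := by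
  have h1 := Pool.Agent.W2helper36.LN.CC_pos d hH
  have h2 := Pool.Agent.W2helper36.LN.Noise.cn_pos hd
  unfold cp
  positivity

theorem noise (hd : 1 ≤ d) {κ : ℝ} (hκ : 0 < κ) (hκ1 : κ ≤ 1) {b₀ : Vec d → Vec d}
    (hb₀ : Measurable b₀) :
    RandomEstimates (Pool.Agent.W2helper36.LN.AA d) (cp d) κ d (Pool.Agent.W2helper36.LN.Noise.PP d)
      (fun ω v => b₀ v + Pool.Agent.W2helper36.LN.Noise.g κ ω v) := by
  have hcn := Pool.Agent.W2helper36.LN.Noise.cn_pos hd
  have hcn1 := Pool.Agent.W2helper36.LN.Noise.cn_le hd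
  have hA := (Pool.Agent.W2helper36.LN.AA_pos d).le
  have hg := Pool.Agent.W2helper36.LN.Noise.measurable_g (d := d) hκ.le
  have hb : Measurable (fun z : Pool.Agent.W2helper36.LN.Noise.Om d × Vec d =>
      b₀ z.2 + Pool.Agent.W2helper36.LN.Noise.g κ z.1 z.2) := (hb₀.comp measurable_snd).add hg
  obtain ⟨h1, h2⟩ := random (P := Pool.Agent.W2helper36.LN.Noise.PP d)
    (b := fun ω v => b₀ v + Pool.Agent.W2helper36.LN.Noise.g κ ω v) hb
    (κ := Pool.Agent.W2helper36.LN.Noise.cn d * κ) (α := d) (by positivity) (by nlinarith)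
    (by positivity) le_rfl (Pool.Agent.W2helper36.LN.Noise.lnd_noise hd hκ b₀)
  refine ⟨?_, ?_⟩
  · intro H u hH hu
    obtain ⟨E, hE, hP, hEs⟩ := h1 H u hH hu
    refine ⟨E, hE, hP, fun ω hω => ?_⟩
    have h3 := (hEs ω hω).scale hA (by
      have := Pool.Agent.W2helper36.LN.CC_pos d hH
      positivity) hcn hκ
    have e : Pool.Agent.W2helper36.LN.CC d H * u * (Pool.Agent.W2helper36.LN.Noise.cn d ^ d)⁻¹ =
        cp d H * u := by unfold cp; ring
    rwa [e] at h3
  · filter_upwards [h2] with ω hω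
    intro H
    obtain ⟨K, hK⟩ := hω H
    have hK' : Estimates (Pool.Agent.W2helper36.LN.AA d) (max K 0) H
        (Pool.Agent.W2helper36.LN.Noise.cn d * κ) d
        (fun v => b₀ v + Pool.Agent.W2helper36.LN.Noise.g κ ω v) := by
      refine ⟨fun r t y hr hr1 ht => (hK.1 r t y hr hr1 ht).trans (ENNReal.ofReal_le_ofReal ?_),
        fun p δ f hp hδ hδ1 hf hfH => (hK.2 p δ f hp hδ hδ1 hf hfH).trans ?_⟩
      · have : 0 ≤ (r / (Pool.Agent.W2helper36.LN.Noise.cn d * κ)) ^ (d : ℝ) := by positivity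
        gcongr
        exact le_max_left _ _
      · gcongr
        exact le_max_left _ _
    exact ⟨_, hK'.scale hA (le_max_right _ _) hcn hκ⟩

/-- The constants in the density theorem. -/
noncomputable def cq (d : ℕ) (H : ℝ) : ℝ := cp d (⌈H⌉₊ : ℝ) * ((⌈H⌉₊ : ℝ) + 2)

theorem density (hd : 1 ≤ d) {κ : ℝ} (hκ : 0 < κ) (hκ1 : κ ≤ 1) {b₀ : Vec d → Vec d}
    (hb₀ : Measurable b₀) : ∃ g : Vec d → Vec d, Continuous g ∧ (∀ v, ‖g v‖ ≤ κ) ∧
      ∀ H : ℝ, Estimates (Pool.Agent.W2helper36.LN.AA d) (cq d H) H κ d (fun v => b₀ v + g v) := by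
  obtain ⟨h1, _⟩ := noise hd hκ hκ1 hb₀
  have h2 : ∀ N : ℕ, ∃ E : Set (Pool.Agent.W2helper36.LN.Noise.Om d), MeasurableSet E ∧
      Pool.Agent.W2helper36.LN.Noise.PP d Eᶜ ≤ ENNReal.ofReal (Real.exp (-((N : ℝ) + 2))) ∧
      ∀ ω ∈ E, Estimates (Pool.Agent.W2helper36.LN.AA d) (cp d N * ((N : ℝ) + 2)) N κ d
        (fun v => b₀ v + Pool.Agent.W2helper36.LN.Noise.g κ ω v) := fun N =>
    h1 N ((N : ℝ) + 2) (Nat.cast_nonneg N) (by
      have : (0 : ℝ) ≤ N := Nat.cast_nonneg N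
      linarith)
  choose E hE hP hEs using h2
  have h3 : Pool.Agent.W2helper36.LN.Noise.PP d (⋃ N, (E N)ᶜ) < 1 := by
    calc Pool.Agent.W2helper36.LN.Noise.PP d (⋃ N, (E N)ᶜ)
        ≤ ∑' N, Pool.Agent.W2helper36.LN.Noise.PP d (E N)ᶜ := measure_iUnion_le _
      _ ≤ ∑' N : ℕ, ENNReal.ofReal (1 / 2) * (1 / 2 : ℝ≥0∞) ^ (N + 1) := by
          apply ENNReal.tsum_le_tsum
          intro N
          refine (hP N).trans ?_
          have e1 : ENNReal.ofReal (1 / 2) * (1 / 2 : ℝ≥0∞) ^ (N + 1) =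
              ENNReal.ofReal (1 / 2 * (1 / 2) ^ (N + 1)) := by
            rw [ENNReal.ofReal_mul (by norm_num), ENNReal.ofReal_pow (by norm_num)]
            congr 2
            rw [ENNReal.ofReal_div_of_pos (by norm_num)]
            simp
          rw [e1]
          apply ENNReal.ofReal_le_ofReal
          have e2 : Real.exp (-((N : ℝ) + 2)) = (Real.exp (-1)) ^ (N + 2) := by
            rw [← Real.exp_nat_mul]
            push_cast
            ring_nf
          rw [e2]
          calc (Real.exp (-1)) ^ (N + 2) ≤ (1 / 2) ^ (N + 2) := by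
                apply pow_le_pow_left₀ (Real.exp_pos _).le
                rw [Real.exp_neg, one_div]
                apply inv_anti₀ (by norm_num)
                have := Real.add_one_le_exp 1
                linarith
            _ = _ := by ring
      _ = ENNReal.ofReal (1 / 2) := by
          rw [ENNReal.tsum_mul_left]
          have : ∑' k : ℕ, (1 / 2 : ℝ≥0∞) ^ (k + 1) = 1 := by
            have := ENNReal.tsum_geometric_add_one (1 / 2)
            rw [this]
            simp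
            rw [ENNReal.inv_mul_cancel (by norm_num) (by norm_num)]
          rw [this, mul_one]
      _ < 1 := by
          rw [ENNReal.ofReal_lt_one]
          norm_num
  obtain ⟨ω, hω⟩ : ∃ ω, ω ∉ ⋃ N, (E N)ᶜ := by
    by_contra hcon
    push Not at hcon
    have h4 : (⋃ N, (E N)ᶜ) = univ := eq_univ_of_forall hcon
    rw [h4, measure_univ] at h3
    exact lt_irrefl _ h3
  refine ⟨Pool.Agent.W2helper36.LN.Noise.g κ ω, Pool.Agent.W2helper36.LN.Noise.continuous_g hκ.le ω,
    Pool.Agent.W2helper36.LN.Noise.norm_g hκ.le ω, ?_⟩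
  intro H
  have h5 : ω ∈ E ⌈H⌉₊ := by
    by_contra hcon
    exact hω (mem_iUnion.2 ⟨_, hcon⟩)
  exact (hEs ⌈H⌉₊ ω h5).mono (Nat.le_ceil H)

end proof

/-- **Kakeya maximal estimates for locally nondeterministic random families of lines, and for small
continuous random perturbations of arbitrary families.** -/
theorem result (d : ℕ) (hd : 1 ≤ d) :
    (∃ (A : ℝ) (C : ℝ → ℝ), 0 < A ∧ (∀ H, 0 ≤ H → 0 < C H) ∧
      -- 1. the criterion
      (∀ (Ω : Type) [MeasurableSpace Ω] (P : Measure Ω) [IsProbabilityMeasure P]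
        (b : Ω → Vec d → Vec d) (κ α : ℝ), Measurable (fun z : Ω × Vec d => b z.1 z.2) →
        0 < κ → κ ≤ 1 → 0 ≤ α → α ≤ d → LocallyNondeterministic P κ α b →
        RandomEstimates A C κ α P b) ∧
      -- 2. small continuous random perturbations of arbitrary families
      (∀ κ : ℝ, 0 < κ → κ ≤ 1 → ∃ (Ω : Type) (_ : MeasurableSpace Ω) (P : Measure Ω)
        (_ : IsProbabilityMeasure P) (g : Ω → Vec d → Vec d),
        Measurable (fun z : Ω × Vec d => g z.1 z.2) ∧ (∀ ω, Continuous (g ω)) ∧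
        (∀ ω v, ‖g ω v‖ ≤ κ) ∧ ∀ b₀ : Vec d → Vec d, Measurable b₀ →
          RandomEstimates A C κ d P (fun ω v => b₀ v + g ω v)) ∧
      -- 3. density of the families that satisfy the estimates
      (∀ (κ : ℝ) (b₀ : Vec d → Vec d), 0 < κ → κ ≤ 1 → Measurable b₀ →
        ∃ g : Vec d → Vec d, Continuous g ∧ (∀ v, ‖g v‖ ≤ κ) ∧
          ∀ H : ℝ, 0 ≤ H → Estimates A (C H) H κ d (fun v => b₀ v + g v))) ∧
    -- 4. sharpness of the dependence on `κ`
    (∃ c : ℝ, 0 < c ∧ ∀ (κ δ K : ℝ) (b : Vec d → Vec d), 0 < κ → κ ≤ 1 → 0 < δ → δ ≤ κ → δ < 1 →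
      Measurable b → (∀ v, ‖v‖ ≤ 1 → ‖b v‖ ≤ κ) →
      (∀ f : Space d → ℝ, Measurable f → VanishesAbove 1 f →
        ∫⁻ v in closedBall (0 : Vec d) 1, lineMax δ b f v ≤ ENNReal.ofReal K * ∫⁻ y, ‖f y‖ₑ) →
      c * (κ ^ d)⁻¹ ≤ K) := by
  refine ⟨⟨Pool.Agent.W2helper36.LN.AA d, fun H => cq d H + cp d H +
    Pool.Agent.W2helper36.LN.CC d H, Pool.Agent.W2helper36.LN.AA_pos d, ?_, ?_, ?_, ?_⟩, ?_⟩
  · intro H hH
    have h1 := cp_pos hd hH
    have h2 := Pool.Agent.W2helper36.LN.CC_pos d hH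
    have h3 : 0 ≤ cq d H := by
      have := cp_pos hd (Nat.cast_nonneg ⌈H⌉₊ : (0 : ℝ) ≤ (⌈H⌉₊ : ℝ))
      unfold cq
      positivity
    linarith
  · intro Ω _ P _ b κ α hb hκ hκ1 hα hαd hL
    refine (random hb hκ hκ1 hα hαd hL).monoC (Pool.Agent.W2helper36.LN.AA_pos d).le hκ ?_
    intro H hH
    have h1 := cp_pos hd hH
    have h3 : 0 ≤ cq d H := by
      have := cp_pos hd (Nat.cast_nonneg ⌈H⌉₊ : (0 : ℝ) ≤ (⌈H⌉₊ : ℝ))
      unfold cq
      positivity
    linarith
  · intro κ hκ hκ1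
    refine ⟨Pool.Agent.W2helper36.LN.Noise.Om d, inferInstance, Pool.Agent.W2helper36.LN.Noise.PP d,
      inferInstance, Pool.Agent.W2helper36.LN.Noise.g κ,
      Pool.Agent.W2helper36.LN.Noise.measurable_g hκ.le,
      Pool.Agent.W2helper36.LN.Noise.continuous_g hκ.le,
      Pool.Agent.W2helper36.LN.Noise.norm_g hκ.le, ?_⟩
    intro b₀ hb₀
    refine (noise hd hκ hκ1 hb₀).monoC (Pool.Agent.W2helper36.LN.AA_pos d).le hκ ?_
    intro H hH
    have h2 := Pool.Agent.W2helper36.LN.CC_pos d hH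
    have h3 : 0 ≤ cq d H := by
      have := cp_pos hd (Nat.cast_nonneg ⌈H⌉₊ : (0 : ℝ) ≤ (⌈H⌉₊ : ℝ))
      unfold cq
      positivity
    linarith
  · intro κ b₀ hκ hκ1 hb₀
    obtain ⟨g, hg, hgκ, h⟩ := density hd hκ hκ1 hb₀
    refine ⟨g, hg, hgκ, fun H hH => (h H).monoK (Pool.Agent.W2helper36.LN.AA_pos d).le hκ ?_⟩
    have h1 := cp_pos hd hH
    have h2 := Pool.Agent.W2helper36.LN.CC_pos d hH
    linarith
  · refine ⟨(3 * 16 ^ d)⁻¹, by positivity, ?_⟩
    intro κ δ K b hκ hκ1 hδ hδκ hδ1 hb hbκ h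
    apply Pool.Agent.W2helper36.LN.sharp hd hb hκ hκ1 hδ hδκ hδ1 hbκ
    intro f hf hfT
    simp only [one_mul, ENNReal.rpow_one]
    exact h f hf (fun y t ht => hfT y t (fun hmem => by
      rw [mem_Icc] at hmem
      exact absurd (abs_le.2 hmem) (not_le.2 ht)))

end Pool.Agent.Results.MP_5168f5_an.NoisyFamilies
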