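import Pool.Agent.W2helper36.RA.Main

set_option autoImplicit false

/-!
# MP_5168f5: Kakeya maximal estimates for random rearrangements of arbitrary families of lines

Work in `ℝ^{d+1} = ℝ^d × ℝ` (`Space d`), `n = d + 1 ≥ 2`.  For `v` in the closed unit ball of `ℝ^d`
the line number `v` of the family given by `b : ℝ^d → ℝ^d` is `{(b v + s v, s) : s ∈ ℝ}`; its
direction is `(v, 1)`.  `lineMax δ b f v` is the supremum of the averages of `|f|` over the
`δ`-tubes of length one with axis on the line number `v`.  By measurable selection the Kakeya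
maximal conjecture is an estimate for *all* measurable `b`.

The base points `b v` are kept and the directions are rearranged: the line through `b v` gets the
direction `σ v`, where `σ` is a measure preserving bijection (up to null sets), i.e. `b` is replaced
by `b' = b ∘ σ⁻¹`.  Here `σ = shuffle N ω` is a random isometry of the dyadic metric: every dyadic
cube of side `2^(1-j)`, `j ≥ N`, tosses `d` fair coins, which decide for each coordinate whether its
two halves are exchanged.  So `σ` maps dyadic cubes onto dyadic cubes and moves no point by more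
than `2 d 2^(-N)`.

**Theorem.** Let `b` be *any* measurable family.  Outside an event of probability `e^(-u)`, at all
scales and for all functions `f` at once, the rearranged family satisfies, with `K = C u 2^(N d)`:
* through every ball of radius `r ≤ 1` and height `t` pass only lines in a set of directions of measure
  `K (1 + log (1/r))^2 (r / max |t| r)^d`;
* for all `p ≥ 1` the unweighted `L^p` estimate of the maximal function, over all the directions,
  with the loss `K δ^(-(n-p)) (1 + log (1/δ))^(p+1)` (and no power of `δ` for `p ≥ n`);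
* for functions that vanish at the heights `|t| < η` no power of `δ` for any `p ≥ 1`.
In particular every measurable family of lines satisfies the estimates of the Kakeya maximal
conjecture, for all `p ≥ 1`, after a rearrangement of the directions that moves no direction by more
than `κ`; the constant is at most `C κ^(-d)`.

Proof.  Conditionally on the values of `σ` outside the ball of radius `ρ` around `v`, the point `σ v` is
uniformly distributed in a dyadic cube of side comparable to `ρ` (or `2^(-N)`).  So for fixed `t ≠ 0`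
the field `b v + t σ v` is locally nondeterministic whatever `b` is, with a constant proportional
to `|t|`; sequential conditioning gives factorial moments of the multiplicity, and a union bound in
an integrated form, normalised by the size of the bound at the height `t`, gives all points and all
scales.  The pole at `t = 0` is absorbed by Jensen's inequality for the measure `dt / max |t| δ`.
-/

open MeasureTheory Set ENNReal NNReal Metric ProbabilityTheory

namespace Pool.Agent.Results.MP_5168f5_an.RearrangedFamilies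

/-- Euclidean space `ℝ^d`. -/
abbrev Vec (d : ℕ) : Type := EuclideanSpace ℝ (Fin d)

/-- Euclidean space `ℝ^{d+1}`, written as `ℝ^d × ℝ` with the Euclidean norm. -/
abbrev Space (d : ℕ) : Type := WithLp 2 (Vec d × ℝ)

/-- The closed tube of length `1` and radius `δ` with centre `a` and axis direction `e`. -/
def tube {d : ℕ} (δ : ℝ) (e a : Space d) : Set (Space d) :=
  {y | |inner ℝ (y - a) e| ≤ 1 / 2 ∧ ‖(y - a) - (inner ℝ (y - a) e : ℝ) • e‖ ≤ δ}

/-- The unit vector `(v, 1)/√(1+|v|²)`. -/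
noncomputable def dir {d : ℕ} (v : Vec d) : Space d :=
  (√(1 + ‖v‖ ^ 2))⁻¹ • WithLp.toLp 2 (v, (1:ℝ))

/-- The point of height `s` on the line `{(b v + s v, s)}`. -/
noncomputable def linePt {d : ℕ} (b : Vec d → Vec d) (v : Vec d) (s : ℝ) : Space d :=
  WithLp.toLp 2 (b v + s • v, s)

/-- Supremum of the averages of `|f|` over the `δ`-tubes with axis on the line number `v`. -/
noncomputable def lineMax {d : ℕ} (δ : ℝ) (b : Vec d → Vec d) (f : Space d → ℝ) (v : Vec d) : ℝ≥0∞ :=
  ⨆ s : ℝ, (volume (tube δ (dir v) (linePt b v s)))⁻¹ *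
    ∫⁻ y in tube δ (dir v) (linePt b v s), ‖f y‖ₑ

/-- `f` vanishes at the heights `t` with `|t| > H`. -/
def VanishesAbove {d : ℕ} (H : ℝ) (f : Space d → ℝ) : Prop :=
  ∀ (y : Vec d) (t : ℝ), H < |t| → f (WithLp.toLp 2 (y, t)) = 0

/-- `f` vanishes at the heights `t` with `|t| < η`. -/
def VanishesBelow {d : ℕ} (η : ℝ) (f : Space d → ℝ) : Prop :=
  ∀ (y : Vec d) (t : ℝ), |t| < η → f (WithLp.toLp 2 (y, t)) = 0

/-- The estimates at all scales, for the heights `|t| ≤ H` (`n = d + 1`):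
the measure of the set of the lines that pass within `r` of the point `y` of height `t` is at most
`K (1 + log (1/r))^2 (r / max |t| r)^d`;
`∫ (M_δ f)^p ≤ A^p K (1 + log (1/δ))^(p+1) δ^(-max (n-p) 0) ∫ |f|^p` for all `p ≥ 1`;
`∫ (M_δ f)^p ≤ A^p K η^(-d) (1 + log (1/δ))^2 ∫ |f|^p` for all `p ≥ 1` if `f` vanishes at the heights
`|t| < η`. -/
def Estimates {d : ℕ} (A K H : ℝ) (b : Vec d → Vec d) : Prop :=
  (∀ (r t : ℝ) (y : Vec d), 0 < r → r ≤ 1 → |t| ≤ H →
    volume {v | ‖v‖ ≤ 1 ∧ ‖b v + t • v - y‖ ≤ r} ≤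
      ENNReal.ofReal (K * (1 + Real.log (1 / r)) ^ 2 * (r / max |t| r) ^ d)) ∧
  (∀ (p δ : ℝ) (f : Space d → ℝ), 1 ≤ p → 0 < δ → δ < 1 → Measurable f → VanishesAbove H f →
    ∫⁻ v in closedBall (0 : Vec d) 1, lineMax δ b f v ^ p ≤
      ENNReal.ofReal (A ^ p * K * (1 + Real.log (1 / δ)) ^ (p + 1) *
        δ ^ (-(max ((d : ℝ) + 1 - p) 0))) * ∫⁻ y, ‖f y‖ₑ ^ p) ∧
  ∀ (p δ η : ℝ) (f : Space d → ℝ), 1 ≤ p → 0 < δ → δ < 1 → 0 < η → η ≤ 1 → Measurable f →
    VanishesAbove H f → VanishesBelow η f →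
    ∫⁻ v in closedBall (0 : Vec d) 1, lineMax δ b f v ^ p ≤
      ENNReal.ofReal (A ^ p * K * η⁻¹ ^ d * (1 + Real.log (1 / δ)) ^ 2) * ∫⁻ y, ‖f y‖ₑ ^ p

/-- The index of the dyadic cube of side `2^(1-j)` (a translate of `[-1, -1 + 2^(1-j))^d`) that
contains `v`. -/
noncomputable def cube {d : ℕ} (j : ℕ) (v : Vec d) : Fin d → ℤ :=
  fun i => ⌊(2 : ℝ) ^ j * ((v i + 1) / 2)⌋

/-- Coin tosses: for every dyadic cube and every coordinate one coin. -/
abbrev Coins (d : ℕ) : Type := ℕ × (Fin d → ℤ) → (Fin d → Bool)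

/-- All coins are fair and independent. -/
noncomputable def coinMeasure (d : ℕ) : Measure (Coins d) :=
  Measure.infinitePi fun _ => uniformOn (Set.univ : Set (Fin d → Bool))

/-- The random isometry: for each `j ≥ N`, if the coin number `i` of the dyadic cube of side
`2^(1-j)` that contains `v` says so, the two halves of this cube in the direction `i` are exchanged,
i.e. the next digit of the coordinate `i` of `v` is flipped. -/
noncomputable def shuffle {d : ℕ} (N : ℕ) (ω : Coins d) (v : Vec d) : Vec d :=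
  v + ∑' j : ℕ, (WithLp.toLp 2 (fun i => if N ≤ j ∧ ω (j, cube j v) i = true then
    (1 / 2 : ℝ) ^ j * (1 - 2 * ((cube (j + 1) v i % 2 : ℤ) : ℝ)) else 0) : Vec d)

/-- `σ` and `τ` preserve the measure and are inverse to each other up to null sets. -/
def MutuallyInverse {d : ℕ} (σ τ : Vec d → Vec d) : Prop :=
  MeasurePreserving σ volume volume ∧ MeasurePreserving τ volume volume ∧
    (∀ᵐ v : Vec d, τ (σ v) = v) ∧ ∀ᵐ v : Vec d, σ (τ v) = v

/-- `σ` maps dyadic cubes onto dyadic cubes, up to null sets. -/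
def PreservesCubes {d : ℕ} (σ : Vec d → Vec d) : Prop :=
  ∃ π : ℕ → (Fin d → ℤ) ≃ (Fin d → ℤ), ∀ᵐ v : Vec d, ∀ j, cube j (σ v) = π j (cube j v)

/-- The estimates for the rearranged family `b' = b ∘ σ⁻¹`, i.e. the line through the base point
`b v` gets the direction `σ v`. -/
def RearrangedEstimates {d : ℕ} (A K H : ℝ) (b σ : Vec d → Vec d) : Prop :=
  ∀ b' : Vec d → Vec d, Measurable b' → (∀ᵐ v : Vec d, b' (σ v) = b v) → Estimates A K H b'

section proof

variable {d : ℕ}

theorem shuffle_eq (N : ℕ) (ω : Coins d) (v : Vec d) :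
    shuffle N ω v = Pool.Agent.W2helper36.RA.sg N ω v := by
  unfold shuffle Pool.Agent.W2helper36.RA.sg Pool.Agent.W2helper36.RA.lift
  congr 1
  apply tsum_congr
  intro j
  rw [Pool.Agent.W2helper36.RA.dd_rT]
  unfold Pool.Agent.W2helper36.RA.ddF
  ext i
  have hq : ∀ l, cube l v = Pool.Agent.W2helper36.RA.q l v := fun l => rfl
  simp only [hq]
  unfold Pool.Agent.W2helper36.RA.flips
  by_cases hN : N ≤ j
  · simp only [hN, true_and, if_true]
    unfold Pool.Agent.W2helper36.RA.nd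
    by_cases he : ω (j, Pool.Agent.W2helper36.RA.q j v) i = true
    · simp only [he, if_true]
      push_cast
      ring
    · simp only [he, if_false]
      simp
  · simp only [hN, false_and, if_false]
    unfold Pool.Agent.W2helper36.RA.nd
    simp

theorem toEst {A K H : ℝ} {b : Vec d → Vec d} (h : Pool.Agent.W2helper36.RA.Est A K H b) :
    Estimates A K H b := by
  refine ⟨h.1, ?_, ?_⟩
  · intro p δ f hp hδ hδ1 hf hfH
    have key := h.2.1 p δ hp hδ hδ1 f hf (fun y t ht => hfH y t (by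
      by_contra hcon
      exact ht (mem_Icc.2 (abs_le.1 (not_lt.1 hcon)))))
    simp only [one_mul, ENNReal.rpow_one] at key
    exact key
  · intro p δ η f hp hδ hδ1 hη hη1 hf hfH hfη
    have key := h.2.2 p δ η hp hδ hδ1 hη hη1 f hf (fun y t ht => by
      by_cases h1 : H < |t|
      · exact hfH y t h1
      · apply hfη y t
        by_contra hcon
        exact ht ⟨not_lt.1 hcon, not_lt.1 h1⟩)
    simp only [one_mul, ENNReal.rpow_one] at key
    exact key

/-- The constant `A`. -/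
noncomputable def Ac (d : ℕ) (H : ℝ) : ℝ := Pool.Agent.W2helper36.RA.AH d (⌈H⌉₊ : ℝ)

theorem AH_le {H : ℝ} : Pool.Agent.W2helper36.RA.AH d H ≤ Ac d H := by
  unfold Ac Pool.Agent.W2helper36.RA.AH
  have h1 := Pool.Agent.W2helper36.LN.AA_pos d
  have h2 := Nat.le_ceil H
  have h3 : 3 * (H + 1) ≤ 3 * ((⌈H⌉₊ : ℝ) + 1) := by linarith
  exact mul_le_mul_of_nonneg_right h3 h1.le

/-- The constant `C`. -/
noncomputable def Cc (d : ℕ) (H : ℝ) : ℝ :=
  Pool.Agent.W2helper36.RA.KK d H +
    Pool.Agent.W2helper36.RA.KK d (⌈H⌉₊ : ℝ) * ((⌈H⌉₊ : ℝ) + 2) * (4 * d) ^ d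

end proof

/-- **Kakeya maximal estimates for random rearrangements of arbitrary families of lines.** -/
theorem result (d : ℕ) (hd : 1 ≤ d) :
    -- 0. the random maps are measure preserving bijections (up to null sets) that map dyadic cubes
    -- onto dyadic cubes and move no point by more than `2 d 2^(-N)`
    (∀ (N : ℕ) (ω : Coins d), PreservesCubes (shuffle N ω) ∧
      (∀ v, ‖shuffle N ω v - v‖ ≤ 2 * d * (1 / 2) ^ N) ∧
      ∃ τ : Vec d → Vec d, MutuallyInverse (shuffle N ω) τ) ∧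
    ∃ A C : ℝ → ℝ, (∀ H, 0 ≤ H → 0 < A H ∧ 0 < C H) ∧
      -- 1. random rearrangements of an arbitrary family
      (∀ (N : ℕ) (b : Vec d → Vec d), Measurable b →
        (∀ H u : ℝ, 0 ≤ H → 1 ≤ u → ∃ E : Set (Coins d), MeasurableSet E ∧
          coinMeasure d Eᶜ ≤ ENNReal.ofReal (Real.exp (-u)) ∧
          ∀ ω ∈ E, RearrangedEstimates (A H) (C H * u * 2 ^ (N * d)) H b (shuffle N ω)) ∧
        ∀ᵐ ω ∂(coinMeasure d), ∀ H : ℝ, 0 ≤ H → ∃ K : ℝ,
          RearrangedEstimates (A H) K H b (shuffle N ω)) ∧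
      -- 2. small rearrangements of an arbitrary family
      ∀ (κ : ℝ) (b : Vec d → Vec d), 0 < κ → κ ≤ 1 → Measurable b →
        ∃ σ τ : Vec d → Vec d, MutuallyInverse σ τ ∧ PreservesCubes σ ∧
          (∀ v, ‖σ v - v‖ ≤ κ) ∧ (∀ v, ‖τ v - v‖ ≤ κ) ∧
          ∀ H : ℝ, 0 ≤ H → RearrangedEstimates (A H) (C H * (κ ^ d)⁻¹) H b σ := by
  have hdR : (1 : ℝ) ≤ d := by exact_mod_cast hd
  have hsh : ∀ (N : ℕ) (ω : Coins d), shuffle N ω = Pool.Agent.W2helper36.RA.sg N ω := fun N ω =>
    funext fun v => shuffle_eq N ω v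
  have hKK : ∀ H : ℝ, 0 ≤ H → 0 < Pool.Agent.W2helper36.RA.KK d H := fun H hH =>
    Pool.Agent.W2helper36.RA.KK_pos hd hH
  have hCc : ∀ H : ℝ, 0 ≤ H → Pool.Agent.W2helper36.RA.KK d H ≤ Cc d H := by
    intro H hH
    unfold Cc
    have := hKK (⌈H⌉₊ : ℝ) (Nat.cast_nonneg _)
    have h2 : 0 ≤ Pool.Agent.W2helper36.RA.KK d (⌈H⌉₊ : ℝ) * ((⌈H⌉₊ : ℝ) + 2) * (4 * d) ^ d := by
      positivity
    linarith
  have hAH : ∀ H : ℝ, 0 ≤ H → 0 < Pool.Agent.W2helper36.RA.AH d H := fun H hH =>
    Pool.Agent.W2helper36.RA.AH_pos d hH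
  have hcub : ∀ (N : ℕ) (ω : Coins d), PreservesCubes (Pool.Agent.W2helper36.RA.sg N ω) := by
    intro N ω
    refine ⟨fun j => (Pool.Agent.W2helper36.RA.rT N ω).f j, ?_⟩
    filter_upwards [Pool.Agent.W2helper36.RA.ae_dya (Pool.Agent.W2helper36.RA.rT N ω)] with v hv
    exact fun j => Pool.Agent.W2helper36.RA.q_lift _ hv j
  have hinv : ∀ (N : ℕ) (ω : Coins d), MutuallyInverse (Pool.Agent.W2helper36.RA.sg N ω)
      (Pool.Agent.W2helper36.RA.lift (Pool.Agent.W2helper36.RA.rT N ω).inv) := fun N ω =>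
    ⟨Pool.Agent.W2helper36.RA.mp_lift _, Pool.Agent.W2helper36.RA.mp_lift _,
      Pool.Agent.W2helper36.RA.ae_inv _,
      Pool.Agent.W2helper36.RA.ae_inv (Pool.Agent.W2helper36.RA.rT N ω).inv⟩
  refine ⟨?_, Ac d, Cc d, ?_, ?_, ?_⟩
  · intro N ω
    rw [hsh]
    refine ⟨hcub N ω, ?_, _, hinv N ω⟩
    intro v
    refine (Pool.Agent.W2helper36.RA.sg_near N ω v).trans (le_of_eq ?_)
    ring
  · intro H hH
    exact ⟨(hAH H hH).trans_le AH_le, (hKK H hH).trans_le (hCc H hH)⟩
  · intro N b hb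
    refine ⟨?_, ?_⟩
    · intro H u hH hu
      refine ⟨_, Pool.Agent.W2helper36.RA.measurableSet_good measurableSet_closedBall
        (Pool.Agent.W2helper36.RA.meas_Ph N hb) _ _ _ _,
        Pool.Agent.W2helper36.RA.P_rand hd N hb hH u, ?_⟩
      intro ω hω b' hb' hbb
      rw [hsh] at hbb
      have key := Pool.Agent.W2helper36.RA.est_rand hd hb hH hu hω hb' hbb
      refine toEst (key.monoK (hAH H hH).le AH_le ?_ ?_)
      · have := hKK H hH
        positivity
      · have := hCc H hH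
        gcongr
    · filter_upwards [Pool.Agent.W2helper36.RA.ae_all hd N hb] with ω hω
      intro H hH
      obtain ⟨n, hn⟩ := hω ⌈H⌉₊
      refine ⟨Pool.Agent.W2helper36.RA.KK d (⌈H⌉₊ : ℝ) * ((n : ℝ) + 1) * 2 ^ (N * d), ?_⟩
      intro b' hb' hbb
      rw [hsh] at hbb
      have hn0 : (0 : ℝ) ≤ n := Nat.cast_nonneg n
      have key := Pool.Agent.W2helper36.RA.est_rand hd hb (Nat.cast_nonneg _) (by linarith) hn hb' hbb
      exact toEst (key.mono (Nat.le_ceil H))
  · intro κ b hκ hκ1 hb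
    have hx0 : 0 < κ / (2 * d) := by positivity
    have hx1 : κ / (2 * d) ≤ 1 := by
      rw [div_le_one (by positivity)]
      nlinarith
    obtain ⟨n, hn1, hn2⟩ := exists_nat_pow_near_of_lt_one hx0 hx1 (by norm_num : (0 : ℝ) < 1 / 2)
      (by norm_num)
    set N := n + 1 with hN
    have hNup : (d : ℝ) * (2 * (1 / 2 : ℝ) ^ N) ≤ κ := by
      rw [lt_div_iff₀ (by positivity)] at hn1
      calc (d : ℝ) * (2 * (1 / 2 : ℝ) ^ N) = (1 / 2) ^ (n + 1) * (2 * d) := by rw [hN]; ring
        _ ≤ κ := hn1.le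
    have hNlow : (2 : ℝ) ^ (N * d) ≤ (4 * d) ^ d * (κ ^ d)⁻¹ := by
      rw [pow_mul, ← inv_pow, ← mul_pow]
      apply pow_le_pow_left₀ (by positivity)
      rw [← div_eq_mul_inv, le_div_iff₀ hκ]
      have h1 : κ ≤ (1 / 2 : ℝ) ^ N * (4 * d) := by
        rw [div_le_iff₀ (by positivity)] at hn2
        calc κ ≤ (1 / 2) ^ n * (2 * d) := hn2
          _ = _ := by rw [hN, pow_succ]; ring
      have hp2 : (2 : ℝ) ^ N * (1 / 2) ^ N = 1 := by rw [← mul_pow]; norm_num
      calc (2 : ℝ) ^ N * κ ≤ 2 ^ N * ((1 / 2 : ℝ) ^ N * (4 * d)) := by gcongr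
        _ = ((2 : ℝ) ^ N * (1 / 2) ^ N) * (4 * d) := by ring
        _ = _ := by rw [hp2, one_mul]
    obtain ⟨ω, hω⟩ := Pool.Agent.W2helper36.RA.exists_all hd N hb
    refine ⟨Pool.Agent.W2helper36.RA.sg N ω,
      Pool.Agent.W2helper36.RA.lift (Pool.Agent.W2helper36.RA.rT N ω).inv, hinv N ω, hcub N ω,
      fun v => (Pool.Agent.W2helper36.RA.sg_near N ω v).trans hNup,
      fun v => (Pool.Agent.W2helper36.RA.inv_near N ω v).trans hNup, ?_⟩
    intro H hH b' hb' hbb
    have hm0 : (0 : ℝ) ≤ (⌈H⌉₊ : ℝ) := Nat.cast_nonneg _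
    have key := Pool.Agent.W2helper36.RA.est_rand hd hb hm0 (u := (⌈H⌉₊ : ℝ) + 2) (by linarith)
      (hω ⌈H⌉₊) hb' hbb
    have hK1 := hKK (⌈H⌉₊ : ℝ) hm0
    refine toEst ((key.mono (Nat.le_ceil H)).monoK (hAH _ hm0).le le_rfl (by positivity) ?_)
    calc Pool.Agent.W2helper36.RA.KK d (⌈H⌉₊ : ℝ) * ((⌈H⌉₊ : ℝ) + 2) * 2 ^ (N * d)
        ≤ Pool.Agent.W2helper36.RA.KK d (⌈H⌉₊ : ℝ) * ((⌈H⌉₊ : ℝ) + 2) *
            ((4 * d) ^ d * (κ ^ d)⁻¹) := by gcongr
      _ = Pool.Agent.W2helper36.RA.KK d (⌈H⌉₊ : ℝ) * ((⌈H⌉₊ : ℝ) + 2) * (4 * d) ^ d *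
            (κ ^ d)⁻¹ := by ring
      _ ≤ Cc d H * (κ ^ d)⁻¹ := by
          have := hKK H hH
          unfold Cc
          gcongr
          linarith

end Pool.Agent.Results.MP_5168f5_an.RearrangedFamilies
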